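import Mathlib

/-!
Distinctness of the translated prefixes of a cyclically reduced word.
-/

set_option autoImplicit false

namespace V5helper4.AS

open FreeGroup

variable {α : Type*}

/-- length of the prefix which belongs to the letter number `j` -/
def kk (L : List (α × Bool)) (j : ℕ) : ℕ :=
  match L[j]? with
  | some (_, true) => j
  | some (_, false) => j + 1
  | none => 0

/-- the prefix which belongs to the letter number `j` -/
def pp (L : List (α × Bool)) (j : ℕ) : FreeGroup α := FreeGroup.mk (L.take (kk L j))

theorem kk_true {L : List (α × Bool)} {j : ℕ} (hj : j < L.length) (h : L[j].2 = true) :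
    kk L j = j := by
  obtain ⟨x, b, hx⟩ : ∃ x b, L[j] = (x, b) := ⟨_, _, rfl⟩
  have h' : L[j]? = some (x, b) := by rw [List.getElem?_eq_getElem hj, hx]
  rw [hx] at h
  simp only at h
  subst h
  simp [kk, h']

theorem kk_false {L : List (α × Bool)} {j : ℕ} (hj : j < L.length) (h : L[j].2 = false) :
    kk L j = j + 1 := by
  obtain ⟨x, b, hx⟩ : ∃ x b, L[j] = (x, b) := ⟨_, _, rfl⟩
  have h' : L[j]? = some (x, b) := by rw [List.getElem?_eq_getElem hj, hx]
  rw [hx] at h
  simp only at h
  subst h
  simp [kk, h']

theorem mk_pow (L : List (α × Bool)) (a : ℕ) :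
    (FreeGroup.mk L) ^ a = FreeGroup.mk (List.replicate a L).flatten := by
  induction a with
  | zero => rfl
  | succ a ih => rw [pow_succ', ih, mul_mk, List.replicate_succ, List.flatten_cons]

theorem eq_of_mk [DecidableEq α] {L₁ L₂ : List (α × Bool)} (h1 : IsReduced L₁) (h2 : IsReduced L₂)
    (h : FreeGroup.mk L₁ = FreeGroup.mk L₂) : L₁ = L₂ := by
  have h3 : FreeGroup.reduce L₁ = FreeGroup.reduce L₂ := FreeGroup.reduce.sound h
  rwa [h1.reduce_eq, h2.reduce_eq] at h3

theorem dist_nat [DecidableEq α] (L : List (α × Bool)) (hL : IsCyclicallyReduced L) (i j : ℕ)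
    (hi : i < L.length) (hj : j < L.length) (hij : i ≠ j) (hx : L[i].1 = L[j].1) (a : ℕ) :
    pp L j ≠ (FreeGroup.mk L) ^ a * pp L i := by
  intro h
  rw [pp, pp, mk_pow, mul_mk] at h
  have hki : kk L i ≤ i + 1 ∧ i ≤ kk L i := by
    cases hb : L[i].2
    · rw [kk_false hi hb]; omega
    · rw [kk_true hi hb]; omega
  have hkj : kk L j ≤ j + 1 ∧ j ≤ kk L j := by
    cases hb : L[j].2
    · rw [kk_false hj hb]; omega
    · rw [kk_true hj hb]; omega
  have hr1 : IsReduced (L.take (kk L j)) := by
    have h4 := hL.isReduced
    rw [FreeGroup.IsReduced] at h4 ⊢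
    exact h4.take _
  have hr2 : IsReduced ((List.replicate a L).flatten ++ L.take (kk L i)) := by
    have h5 := (hL.flatten_replicate (a + 1)).isReduced
    have h6 : (List.replicate (a + 1) L).flatten
        = (List.replicate a L).flatten ++ L.take (kk L i) ++ L.drop (kk L i) := by
      rw [List.replicate_succ', List.flatten_concat, List.append_assoc, List.take_append_drop]
    rw [h6] at h5
    rw [FreeGroup.IsReduced] at h5 ⊢
    exact h5.left_of_append
  have heq := eq_of_mk hr1 hr2 h
  have hlen := congrArg List.length heq
  rw [List.length_append, List.length_take, List.length_take, List.length_flatten,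
    List.map_replicate, List.sum_replicate, smul_eq_mul] at hlen
  have hmi : min (kk L i) L.length = kk L i := min_eq_left (by omega)
  have hmj : min (kk L j) L.length = kk L j := min_eq_left (by omega)
  rw [hmi, hmj] at hlen
  have hchain : ∀ m (hm : m + 1 < L.length), L[m].1 = L[m + 1].1 → L[m].2 = L[m + 1].2 := by
    intro m hm
    have h7 := hL.isReduced
    rw [FreeGroup.IsReduced, List.isChain_iff_getElem] at h7
    exact h7 m hm
  rcases Nat.eq_zero_or_pos a with ha | ha
  · subst ha
    rw [Nat.zero_mul, Nat.zero_add] at hlen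
    cases hbi : L[i].2 <;> cases hbj : L[j].2
    · rw [kk_false hi hbi, kk_false hj hbj] at hlen
      omega
    · rw [kk_false hi hbi, kk_true hj hbj] at hlen
      subst hlen
      have h8 := hchain i hj hx
      rw [hbi, hbj] at h8
      exact absurd h8 (by decide)
    · rw [kk_true hi hbi, kk_false hj hbj] at hlen
      subst hlen
      have h8 := hchain j hi hx.symm
      rw [hbi, hbj] at h8
      exact absurd h8 (by decide)
    · rw [kk_true hi hbi, kk_true hj hbj] at hlen
      omega
  · have h9 : L.length ≤ a * L.length := Nat.le_mul_of_pos_left _ ha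
    have hki0 : kk L i = 0 := by omega
    have hkjr : kk L j = L.length := by omega
    have hi0 : i = 0 := by omega
    subst hi0
    have hbj : L[j].2 = false := by
      cases hb : L[j].2
      · rfl
      · rw [kk_true hj hb] at hkjr; omega
    have hbi : L[0].2 = true := by
      cases hb : L[0].2
      · rw [kk_false hi hb] at hki0; omega
      · rfl
    rw [kk_false hj hbj] at hkjr
    have hj1 : j = L.length - 1 := by omega
    have h10 := hL.2 L[j] (by
      rw [List.getLast?_eq_getElem?, Option.mem_def, ← hj1, List.getElem?_eq_getElem hj]) L[0] (by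
      rw [List.head?_eq_getElem?, Option.mem_def, List.getElem?_eq_getElem hi]) hx.symm
    rw [hbi, hbj] at h10
    exact absurd h10 (by decide)

/-- **distinctness**: the translated prefixes of a cyclically reduced word which belong to different
occurrences of the same generator are in different cosets of the cyclic group generated by the word -/
theorem dist [DecidableEq α] (L : List (α × Bool)) (hL : IsCyclicallyReduced L) (i j : ℕ)
    (hi : i < L.length) (hj : j < L.length) (hij : i ≠ j) (hx : L[i].1 = L[j].1) (a : ℤ) :
    pp L j ≠ (FreeGroup.mk L) ^ a * pp L i := by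
  intro h
  rcases Int.le_total 0 a with ha | ha
  · lift a to ℕ using ha
    rw [zpow_natCast] at h
    exact dist_nat L hL i j hi hj hij hx a h
  · obtain ⟨b, rfl⟩ : ∃ b : ℤ, a = -b := ⟨-a, by ring⟩
    have hb : 0 ≤ b := by omega
    lift b to ℕ using hb
    apply dist_nat L hL j i hj hi hij.symm hx.symm b
    rw [h, zpow_neg, zpow_natCast, mul_inv_cancel_left]

end V5helper4.AS
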