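import Pool.Agent.V5helper35.AS.StmA
import Pool.Agent.V5helper4.AS.Dist
import Pool.Agent.Helper436.SM.RF1

set_option autoImplicit false

namespace V5helper4.AS

open Pool.Agent.R387.TC Pool.Agent.N77.CS Pool.Agent.V5helper35.AS
open FreeGroup (IsReduced IsCyclicallyReduced mul_mk inv_mk)

section cocycle

variable {n : ℕ} {Q : Type} [Group Q] (q : F n →* Q) (x : Fin n)

omit [Group Q] in
theorem neg_eq_self2 (f : Q → ZMod 2) : -f = f := by
  ext y
  rw [Pi.neg_apply, ZMod.neg_eq_self_mod_two]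

theorem cc_inv_of_eq : cc q x (FreeGroup.of x)⁻¹ = delta (q (FreeGroup.of x))⁻¹ := by
  have h := cc_inv q x (FreeGroup.of x)
  rw [cc_of_eq, neg_eq_self2] at h
  have h2 := congrArg (trans (q (FreeGroup.of x))⁻¹) h
  rw [← Equiv.Perm.mul_apply, ← map_mul, inv_mul_cancel, map_one, Equiv.Perm.one_apply,
    trans_delta, mul_one] at h2
  exact h2

theorem cc_inv_of_ne {j : Fin n} (hj : j ≠ x) : cc q x (FreeGroup.of j)⁻¹ = 0 := by
  have h := cc_inv q x (FreeGroup.of j)
  rw [cc_of_ne q x hj, neg_zero] at h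
  have h2 := congrArg (trans (q (FreeGroup.of j))⁻¹) h
  rw [← Equiv.Perm.mul_apply, ← map_mul, inv_mul_cancel, map_one, Equiv.Perm.one_apply] at h2
  rw [h2]
  rfl

open Classical in
theorem cc_take (L : List (Fin n × Bool)) (m : ℕ) (hm : m ≤ L.length) :
    cc q x (FreeGroup.mk (L.take m)) = ∑ j ∈ Finset.range m,
      if (L[j]?).map Prod.fst = some x then delta (q (pp L j)) else 0 := by
  induction m with
  | zero =>
    rw [Finset.sum_range_zero, List.take_zero]
    exact cc_one q x
  | succ m ih =>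
    have hm' : m < L.length := by omega
    rw [Finset.sum_range_succ, ← ih (by omega), List.take_succ_eq_append_getElem hm', ← mul_mk,
      cc_mul]
    congr 1
    obtain ⟨y, b, hyb⟩ : ∃ y b, L[m] = (y, b) := ⟨_, _, rfl⟩
    have hget : L[m]? = some (y, b) := by rw [List.getElem?_eq_getElem hm', hyb]
    rw [hget, hyb]
    by_cases hy : y = x
    · subst hy
      rw [if_pos (by simp)]
      cases b
      · have h1 : (FreeGroup.mk [(y, false)] : F n) = (FreeGroup.of y)⁻¹ := rfl
        rw [h1, cc_inv_of_eq, trans_delta, ← map_inv, ← map_mul, pp,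
          kk_false hm' (by rw [hyb]), List.take_succ_eq_append_getElem hm', ← mul_mk, hyb, h1]
      · have h1 : (FreeGroup.mk [(y, true)] : F n) = FreeGroup.of y := rfl
        rw [h1, cc_of_eq, trans_delta, mul_one, pp, kk_true hm' (by rw [hyb])]
    · rw [if_neg (by simpa using hy)]
      have h0 : cc q x (FreeGroup.mk [(y, b)]) = 0 := by
        cases b
        · exact cc_inv_of_ne q x hy
        · exact cc_of_ne q x hy
      rw [h0]
      rfl

open Classical in
theorem cc_word (L : List (Fin n × Bool)) :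
    cc q x (FreeGroup.mk L) = ∑ j ∈ Finset.range L.length,
      if (L[j]?).map Prod.fst = some x then delta (q (pp L j)) else 0 := by
  have h := cc_take q x L L.length le_rfl
  rwa [List.take_length] at h

end cocycle

theorem exists_sep {n : ℕ} (w : F n) (hw : w ≠ 1) :
    ∃ M : Subgroup (F n), M.Normal ∧ M.FiniteIndex ∧ w ∉ M := by
  obtain ⟨m, e, he⟩ := Pool.Agent.Helper436.SM.free_rf w hw
  refine ⟨core n (Equiv.Perm (Fin m)), ?_, core_fin _ _, ?_⟩
  · have := core_char n (Equiv.Perm (Fin m))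
    infer_instance
  · intro h
    exact he (mem_core.1 h (FreeGroup.lift e))

theorem exists_sep_finset {n : ℕ} (s : Finset (F n)) (hs : ∀ w ∈ s, w ≠ 1) (L : Subgroup (F n))
    (hL : L.Normal) (hL' : L.FiniteIndex) :
    ∃ M : Subgroup (F n), M.Normal ∧ M.FiniteIndex ∧ M ≤ L ∧ ∀ w ∈ s, w ∉ M := by
  classical
  induction s using Finset.induction_on with
  | empty => exact ⟨L, hL, hL', le_rfl, by simp⟩
  | insert a s ha ih =>
    obtain ⟨M, h1, h2, h3, h4⟩ := ih fun w hw => hs w (Finset.mem_insert_of_mem hw)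
    obtain ⟨M', h1', h2', h3'⟩ := exists_sep a (hs a (Finset.mem_insert_self _ _))
    refine ⟨M ⊓ M', inferInstance, inferInstance, inf_le_left.trans h3, ?_⟩
    intro w hw hwm
    rcases Finset.mem_insert.1 hw with rfl | hw
    · exact h3' hwm.2
    · exact h4 w hw hwm.1

theorem cw_red (hcen : S_CEN) {n : ℕ} (W : List (Fin n × Bool)) (hW : IsCyclicallyReduced W)
    (hne : W ≠ []) (hw : NotPow (FreeGroup.mk W : F n)) (L : Subgroup (F n)) (hL : L.Normal)
    (hL' : L.FiniteIndex) :
    ∃ K : Subgroup (F n), K.Characteristic ∧ K.FiniteIndex ∧ K ≤ L ∧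
      ∀ g : F n, g * FreeGroup.mk W * g⁻¹ * (FreeGroup.mk W)⁻¹ ∈ K →
        ∃ i : ℤ, g⁻¹ * (FreeGroup.mk W) ^ i ∈ L := by
  classical
  set w : F n := FreeGroup.mk W with hwdef
  have h0 : 0 < W.length := List.length_pos_iff.2 hne
  set x : Fin n := W[0].1 with hx
  -- the positions of the letter `x`
  let J : Finset ℕ := (Finset.range W.length).filter fun j => (W[j]?).map Prod.fst = some x
  have hJ : ∀ j ∈ J, ∃ h : j < W.length, W[j].1 = x := by
    intro j hj
    have h1 := Finset.mem_filter.1 hj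
    have h2 : j < W.length := Finset.mem_range.1 h1.1
    refine ⟨h2, ?_⟩
    have h3 := h1.2
    rw [List.getElem?_eq_getElem h2] at h3
    simpa using h3
  have h0J : 0 ∈ J := by
    refine Finset.mem_filter.2 ⟨Finset.mem_range.2 h0, ?_⟩
    rw [List.getElem?_eq_getElem h0]
    simp [hx]
  -- commutators
  let cm : ℕ → F n := fun j => (pp W j * (pp W 0)⁻¹) * w * (pp W j * (pp W 0)⁻¹)⁻¹ * w⁻¹
  have hcm : ∀ j ∈ J, j ≠ 0 → cm j ≠ 1 := by
    intro j hj hj0 hone
    obtain ⟨hjl, hjx⟩ := hJ j hj
    have h1 : (pp W j * (pp W 0)⁻¹) * w = w * (pp W j * (pp W 0)⁻¹) := by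
      have h2 := mul_inv_eq_one.1 hone
      exact mul_inv_eq_iff_eq_mul.1 h2
    obtain ⟨i, hi⟩ := hcen n w hw _ h1
    have h3 : pp W j = w ^ i * pp W 0 := by
      rw [← hi]; group
    exact dist W hW 0 j h0 hjl hj0.symm (by rw [hjx]) i h3
  obtain ⟨M, hM1, hM2, hM3, hM4⟩ := exists_sep_finset ((J.filter fun j => j ≠ 0).image cm) (by
    intro v hv
    obtain ⟨j, hj, rfl⟩ := Finset.mem_image.1 hv
    have := Finset.mem_filter.1 hj
    exact hcm j this.1 this.2) L hL hL'
  let Q := F n ⧸ M
  let q : F n →* Q := QuotientGroup.mk' M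
  let R := Equiv.Perm (Q → ZMod 2) × Q
  have hR : Finite R := inferInstance
  let H0 : Subgroup Q := Subgroup.zpowers (q w)
  have hcomm0 : ∀ b ∈ H0, b * q w = q w * b := by
    rintro _ ⟨i, rfl⟩
    exact ((Commute.refl (q w)).zpow_left i).eq
  -- elements of `J` in the same coset
  have hsep : ∀ j ∈ J, (q (pp W j * (pp W 0)⁻¹)) * q w = q w * q (pp W j * (pp W 0)⁻¹) → j = 0 := by
    intro j hj hc
    by_contra hj0
    apply hM4 (cm j) (Finset.mem_image.2 ⟨j, Finset.mem_filter.2 ⟨hj, hj0⟩, rfl⟩)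
    have h1 : q (cm j) = 1 := by
      simp only [cm]
      rw [map_mul, map_mul, map_mul, map_inv, map_inv, hc, mul_inv_cancel_right, mul_inv_cancel]
    exact (QuotientGroup.eq_one_iff _).1 h1
  refine ⟨core n R, core_char _ _, core_fin _ _, ?_, ?_⟩
  · intro y hy
    have := mem_core.1 hy (MonoidHom.prod 1 q)
    exact hM3 ((QuotientGroup.eq_one_iff y).1 (Prod.mk_eq_one.1 this).2)
  · intro g hg
    have e0 := mem_core.1 hg (MonoidHom.prod (aff q x) q)
    have e1 := (Prod.mk_eq_one.1 e0).1
    have e2 := (Prod.mk_eq_one.1 e0).2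
    rw [map_mul, map_inv, mul_inv_eq_one] at e1
    change q (_ * _) = 1 at e2
    rw [map_mul, map_inv, mul_inv_eq_one] at e2
    have e3 : cc q x (g * w * g⁻¹) = cc q x w := by
      unfold cc
      rw [e1]
    have e4 : cc q x (g * w * g⁻¹) =
        cc q x g + trans (q g) (cc q x w) - trans (q w) (cc q x g) := by
      rw [cc_mul, cc_mul]
      have e5 : q (g * w) = q w * q g := by
        rw [← e2, ← map_mul]
        congr 1
        group
      rw [e5, map_mul, Equiv.Perm.mul_apply, cc_inv, sub_eq_add_neg]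
      rfl
    rw [e4] at e3
    have : Fintype H0 := Fintype.ofFinite _
    set z : Q := q (pp W 0) with hz
    have s1 : ∀ b : H0, cc q x g (b.1 * z) + trans (q g) (cc q x w) (b.1 * z) -
        cc q x g ((q w)⁻¹ * (b.1 * z)) = cc q x w (b.1 * z) := by
      intro b
      have := congrFun e3 (b.1 * z)
      rw [Pi.sub_apply, Pi.add_apply] at this
      exact this
    have s2 : ∑ b : H0, cc q x g ((q w)⁻¹ * (b.1 * z)) = ∑ b : H0, cc q x g (b.1 * z) := by
      refine Fintype.sum_equiv (Equiv.mulLeft (⟨q w, Subgroup.mem_zpowers _⟩ : H0)⁻¹) _ _ fun b => ?_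
      simp [mul_assoc]
    have s3 : ∑ b : H0, trans (q g) (cc q x w) (b.1 * z) = ∑ b : H0, cc q x w (b.1 * z) := by
      have := Finset.sum_congr (s₁ := (Finset.univ : Finset H0)) rfl fun b _ => s1 b
      rw [Finset.sum_sub_distrib, Finset.sum_add_distrib, s2] at this
      rw [← this]
      abel
    have hcw : ∀ y, cc q x w y = ∑ j ∈ J, delta (q (pp W j)) y := by
      intro y
      rw [hwdef, cc_word, Finset.sum_apply, Finset.sum_filter]
      refine Finset.sum_congr rfl fun j _ => ?_
      split_ifs <;> rfl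
    have s4 : ∑ b : H0, cc q x w (b.1 * z) = 1 := by
      simp_rw [hcw]
      rw [Finset.sum_comm, Finset.sum_eq_single_of_mem 0 h0J]
      · rw [Finset.sum_eq_single (1 : H0)]
        · simp [delta, hz]
        · intro b _ hb
          simp only [delta]
          rw [if_neg]
          intro h
          apply hb
          have : b.1 = 1 := by simpa [hz] using h
          exact Subtype.ext this
        · intro h; exact absurd (Finset.mem_univ _) h
      · intro j hj hj0
        refine Finset.sum_eq_zero fun b _ => ?_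
        simp only [delta]
        rw [if_neg]
        intro h
        apply hj0
        apply hsep j hj
        have h5 : q (pp W j * (pp W 0)⁻¹) = b.1 := by
          rw [map_mul, map_inv, ← h, hz, mul_inv_cancel_right]
        rw [h5]
        exact hcomm0 _ b.2
    rw [s4] at s3
    have s5 : ∃ b : H0, trans (q g) (cc q x w) (b.1 * z) ≠ 0 := by
      by_contra hcon
      rw [Finset.sum_eq_zero fun b _ => not_not.1 fun h => hcon ⟨b, h⟩] at s3
      exact zero_ne_one s3
    obtain ⟨b, hb⟩ := s5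
    rw [trans_apply, hcw] at hb
    obtain ⟨j, hj, hjb⟩ := Finset.exists_ne_zero_of_sum_ne_zero hb
    have s6 : (q g)⁻¹ * (b.1 * z) = q (pp W j) := by
      by_contra hcon
      apply hjb
      simp only [delta]
      rw [if_neg hcon]
    -- `q g = b * z * (q p_j)⁻¹`
    have hgb : q g = b.1 * (q (pp W j * (pp W 0)⁻¹))⁻¹ := by
      rw [map_mul, map_inv, ← s6, ← hz]
      group
    have hcg : q g * q w = q w * q g := by
      have h6 : q g * q w * (q g)⁻¹ = q w := by
        rw [← map_inv, ← map_mul, ← map_mul]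
        exact e2
      exact mul_inv_eq_iff_eq_mul.1 h6
    have hj0 : j = 0 := by
      apply hsep j hj
      have h7 : q (pp W j * (pp W 0)⁻¹) = (q g)⁻¹ * b.1 := by
        rw [hgb]; group
      rw [h7]
      have c1 : Commute (q g) (q w) := hcg
      have c2 : Commute b.1 (q w) := hcomm0 _ b.2
      exact (c1.inv_left.mul_left c2).eq
    rw [hj0, mul_inv_cancel, map_one, inv_one, mul_one] at hgb
    obtain ⟨i, hi⟩ := b.2
    refine ⟨i, hM3 ?_⟩
    have h8 : q (g⁻¹ * w ^ i) = 1 := by
      rw [map_mul, map_inv, hgb, map_zpow]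
      have : (q w) ^ i = b.1 := hi
      rw [this, inv_mul_cancel]
    exact (QuotientGroup.eq_one_iff _).1 h8

theorem t_CW (hcen : S_CEN) : S_CW := by
  classical
  intro n w hw L hL hL'
  set W := FreeGroup.reduceCyclically w.toWord with hWdef
  set c : F n := FreeGroup.mk (FreeGroup.reduceCyclically.conjugator w.toWord) with hc
  have hWr : IsCyclicallyReduced W := FreeGroup.reduceCyclically.isCyclicallyReduced FreeGroup.isReduced_toWord
  have hconj : w = c * FreeGroup.mk W * c⁻¹ := by
    have h1 := FreeGroup.reduceCyclically.conj_conjugator_reduceCyclically w.toWord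
    have h2 : w = FreeGroup.mk w.toWord := FreeGroup.mk_toWord.symm
    conv_lhs => rw [h2, ← h1]
    rw [← mul_mk, ← mul_mk, ← inv_mk]
  have hne : W ≠ [] := by
    intro h
    apply hw.1
    rw [hconj, h]
    have : (FreeGroup.mk [] : F n) = 1 := rfl
    rw [this]; group
  have hw' : NotPow (FreeGroup.mk W : F n) := by
    constructor
    · intro h
      apply hw.1
      rw [hconj, h]; group
    · intro v j hv
      apply hw.2 (c * v * c⁻¹) j
      rw [hconj, hv, conj_zpow]
  obtain ⟨K, hK1, hK2, hK3, hK4⟩ := cw_red hcen W hWr hne hw' L hL hL'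
  refine ⟨K, hK1, hK2, hK3, ?_⟩
  intro g hg
  have hKn : K.Normal := inferInstance
  obtain ⟨i, hi⟩ := hK4 (c⁻¹ * g * c) (by
    have h3 := hKn.conj_mem _ hg c⁻¹
    have h4 : c⁻¹ * (g * w * g⁻¹ * w⁻¹) * c⁻¹⁻¹ =
        c⁻¹ * g * c * FreeGroup.mk W * (c⁻¹ * g * c)⁻¹ * (FreeGroup.mk W)⁻¹ := by
      rw [hconj]; group
    rwa [h4] at h3)
  refine ⟨i, ?_⟩
  have h5 := hL.conj_mem _ hi c
  have h6 : c * ((c⁻¹ * g * c)⁻¹ * (FreeGroup.mk W) ^ i) * c⁻¹ = g⁻¹ * w ^ i := by
    rw [hconj, conj_zpow]; group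
  rwa [h6] at h5

end V5helper4.AS
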